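import Pool.Agent.X8.BalDig2

/-!
A balanced digraph of order 10 whose pair `(α(Γ), α(Γ̄))` has both entries positive and lies
strictly below the quartic curve.  Its arcs are the directed 4-cycle `0 → 1 → 2 → 3 → 0` and pairs
of opposite arcs between `0` and `2`, between `0` and each of `4,…,9`, and between `3` and each of
`4,…,9`.
-/

namespace Pool.Agent.Results.MP_31cf8f_co.TenVertexDigraph

open Pool.Agent.X8.BD

/-- There is a balanced digraph `E` on 10 vertices with `x = α(E)`, `y = α(Ē)` both in `[1/2, 1]`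
and `xy(2-xy) < 10(1-x)(1-y)(10-2-x-y)`; hence the statement of Q1 is false. -/
theorem result :
    (∃ E : Fin 10 → Fin 10 → Bool, Loopless E ∧ Balanced E ∧
      1 / 2 ≤ alpha E ∧ alpha E ≤ 1 ∧ 1 / 2 ≤ alpha (complDig E) ∧ alpha (complDig E) ≤ 1 ∧
      alpha E * alpha (complDig E) * (2 - alpha E * alpha (complDig E)) <
        10 * (1 - alpha E) * (1 - alpha (complDig E)) *
          (10 - 2 - alpha E - alpha (complDig E))) ∧
    ¬ (∀ (n : ℕ) (E : Fin n → Fin n → Bool), 2 ≤ n → Loopless E → Balanced E →
        alpha E ≤ 1 → alpha (complDig E) ≤ 1 →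
        alpha E * alpha (complDig E) * (2 - alpha E * alpha (complDig E)) <
          (n : ℝ) * (1 - alpha E) * (1 - alpha (complDig E)) *
            ((n : ℝ) - 2 - alpha E - alpha (complDig E)) →
        alpha E = 0 ∨ alpha (complDig E) = 0) := by
  obtain ⟨h1, h2, h6, h3, h7, h4, h5⟩ := main
  refine ⟨⟨G10, h1, h2, h6, by linarith, h7, by linarith, h5⟩, fun H => ?_⟩
  have := H 10 G10 (by norm_num) h1 h2 (by linarith) (by linarith) (by push_cast; exact h5)
  rcases this with h | h <;> linarith

end Pool.Agent.Results.MP_31cf8f_co.TenVertexDigraph
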